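import Mathlib

/-!
MP_3eafcc_gt, Q1.  There is a (countable) Hausdorff space `X` such that the ring `T''(X)` is not
almost regular.  In contrast, for completely regular `X` the ring `T''(X)` is always almost regular.
-/

namespace Pool.Agent.Results.MP_3eafcc_gt.NotAlmostRegular

open Set Topology Filter

universe u

/-- The ring `T''(X)`: all `f : X → ℝ` which are continuous on some dense cozero set. -/
def T'' (X : Type*) [TopologicalSpace X] : Subring (X → ℝ) where
  carrier := {f | ∃ g : X → ℝ, Continuous g ∧ Dense {x | g x ≠ 0} ∧ ContinuousOn f {x | g x ≠ 0}}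
  mul_mem' := by
    rintro f₁ f₂ ⟨g₁, hg₁, hd₁, hf₁⟩ ⟨g₂, hg₂, hd₂, hf₂⟩
    have e : {x | (g₁ * g₂) x ≠ 0} = {x | g₁ x ≠ 0} ∩ {x | g₂ x ≠ 0} := by
      ext x; simp [not_or]
    refine ⟨g₁ * g₂, hg₁.mul hg₂, ?_, ?_⟩
    · rw [e]
      exact hd₁.inter_of_isOpen_left hd₂ (isOpen_ne_fun hg₁ continuous_const)
    · rw [e]
      exact (hf₁.mono inter_subset_left).mul (hf₂.mono inter_subset_right)
  add_mem' := by
    rintro f₁ f₂ ⟨g₁, hg₁, hd₁, hf₁⟩ ⟨g₂, hg₂, hd₂, hf₂⟩
    have e : {x | (g₁ * g₂) x ≠ 0} = {x | g₁ x ≠ 0} ∩ {x | g₂ x ≠ 0} := by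
      ext x; simp [not_or]
    refine ⟨g₁ * g₂, hg₁.mul hg₂, ?_, ?_⟩
    · rw [e]
      exact hd₁.inter_of_isOpen_left hd₂ (isOpen_ne_fun hg₁ continuous_const)
    · rw [e]
      exact (hf₁.mono inter_subset_left).add (hf₂.mono inter_subset_right)
  one_mem' := ⟨1, continuous_const, by simp, continuousOn_const⟩
  zero_mem' := ⟨1, continuous_const, by simp, continuousOn_const⟩
  neg_mem' := by
    rintro f ⟨g, hg, hd, hf⟩
    exact ⟨g, hg, hd, hf.neg⟩

/-- Almost regular (classical) rings: every element is a unit or a zero divisor. -/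
def AlmostRegular (R : Type*) [CommRing R] : Prop :=
  ∀ a : R, IsUnit a ∨ ∃ b : R, b ≠ 0 ∧ a * b = 0

/-! ### Golomb's countable connected Hausdorff space -/

/-- The set of positive integers, to be equipped with Golomb's topology. -/
structure Golomb where
  /-- the positive integer -/
  val : ℕ
  pos : 0 < val

/-- `a + b * n` as a positive integer. -/
def Golomb.prog (a : Golomb) (b n : ℕ) : Golomb := ⟨a.val + b * n, Nat.add_pos_left a.pos _⟩

lemma Golomb.ext' {a b : Golomb} (h : a.val = b.val) : a = b := by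
  cases a; cases b; simp_all

instance : TopologicalSpace Golomb where
  IsOpen U := ∀ a ∈ U, ∃ b : ℕ, 0 < b ∧ Nat.Coprime a.val b ∧ ∀ n : ℕ, a.prog b n ∈ U
  isOpen_univ := fun a _ => ⟨1, one_pos, Nat.coprime_one_right _, fun _ => mem_univ _⟩
  isOpen_inter := by
    intro U V hU hV a ha
    obtain ⟨b, hb, hb', hbU⟩ := hU a ha.1
    obtain ⟨c, hc, hc', hcV⟩ := hV a ha.2
    refine ⟨b * c, Nat.mul_pos hb hc, Nat.Coprime.mul_right hb' hc', fun n => ⟨?_, ?_⟩⟩
    · have := hbU (c * n)
      rwa [show a.prog b (c * n) = a.prog (b * c) n from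
        Golomb.ext' (by simp [Golomb.prog, mul_assoc])] at this
    · have := hcV (b * n)
      rwa [show a.prog c (b * n) = a.prog (b * c) n from
        Golomb.ext' (by simp only [Golomb.prog]; ring)] at this
  isOpen_sUnion := by
    intro S hS a ha
    obtain ⟨U, hU, haU⟩ := ha
    obtain ⟨b, hb, hb', hbU⟩ := hS U hU a haU
    exact ⟨b, hb, hb', fun n => ⟨U, hU, hbU n⟩⟩

lemma Golomb.isOpen_iff {U : Set Golomb} : IsOpen U ↔
    ∀ a ∈ U, ∃ b : ℕ, 0 < b ∧ Nat.Coprime a.val b ∧ ∀ n : ℕ, a.prog b n ∈ U := Iff.rfl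

lemma Golomb.isOpen_class (a : Golomb) {b : ℕ} (hb : 0 < b) (hab : Nat.Coprime a.val b) :
    IsOpen {x : Golomb | x.val ≡ a.val [MOD b]} := by
  rw [Golomb.isOpen_iff]
  intro x hx
  refine ⟨b, hb, ?_, fun n => ?_⟩
  · have h1 := Nat.ModEq.gcd_eq (show x.val ≡ a.val [MOD b] from hx)
    rw [Nat.coprime_iff_gcd_eq_one] at hab ⊢
    rwa [h1]
  · change (x.val + b * n) ≡ a.val [MOD b]
    have h2 : x.val + b * n ≡ x.val [MOD b] := by
      simp [Nat.ModEq]
    exact h2.trans hx

instance : T2Space Golomb := by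
  refine ⟨fun x y hxy => ?_⟩
  obtain ⟨p, hp, hpp⟩ := Nat.exists_infinite_primes (x.val + y.val + 1)
  have hx : Nat.Coprime x.val p :=
    (Nat.coprime_of_lt_prime x.pos.ne' (by omega) hpp).symm
  have hy : Nat.Coprime y.val p :=
    (Nat.coprime_of_lt_prime y.pos.ne' (by omega) hpp).symm
  refine ⟨_, _, Golomb.isOpen_class x hpp.pos hx, Golomb.isOpen_class y hpp.pos hy,
    Nat.ModEq.refl _, Nat.ModEq.refl _, ?_⟩
  rw [Set.disjoint_left]
  intro z hz1 hz2
  have h : x.val ≡ y.val [MOD p] :=
    (show z.val ≡ x.val [MOD p] from hz1).symm.trans (show z.val ≡ y.val [MOD p] from hz2)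
  exact hxy (Golomb.ext' (Nat.ModEq.eq_of_lt_of_lt h (by omega) (by omega)))

/-- Any progression `c + dℕ` with `d` prime to `e` meets `z + eℕ`. -/
lemma Golomb.meet (c z : Golomb) {d e : ℕ} (hd : 0 < d) (he : 0 < e) (hde : Nat.Coprime d e) :
    ∃ m n : ℕ, c.prog d m = z.prog e n := by
  obtain ⟨x, hx1, hx2⟩ := Nat.chineseRemainder hde c.val z.val
  -- `x + d * e * (c + z)` is a common element
  have hge : c.val + z.val ≤ d * e * (c.val + z.val) :=
    Nat.le_mul_of_pos_left _ (Nat.mul_pos hd he)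
  set t := x + d * e * (c.val + z.val) with ht
  have h1 : c.val ≡ t [MOD d] := by
    refine hx1.symm.trans ?_
    rw [ht, mul_assoc]; simp [Nat.ModEq]
  have h2 : z.val ≡ t [MOD e] := by
    refine hx2.symm.trans ?_
    rw [ht, mul_comm d e, mul_assoc]; simp [Nat.ModEq]
  have h1' := (Nat.modEq_iff_dvd' (show c.val ≤ t by omega)).1 h1
  have h2' := (Nat.modEq_iff_dvd' (show z.val ≤ t by omega)).1 h2
  obtain ⟨m, hm⟩ := h1'
  obtain ⟨n, hn⟩ := h2'
  refine ⟨m, n, Golomb.ext' ?_⟩
  simp only [Golomb.prog]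
  omega

lemma Golomb.preconnected : IsPreconnected (univ : Set Golomb) := by
  rw [isPreconnected_iff_subset_of_disjoint]
  intro U V hU hV hUV hdisj
  by_contra hcon
  push Not at hcon
  obtain ⟨h1, h2⟩ := hcon
  rw [Set.not_subset] at h1 h2
  obtain ⟨c, -, hcU⟩ := h1
  obtain ⟨a, -, haV⟩ := h2
  have hcV : c ∈ V := (hUV (mem_univ c)).resolve_left hcU
  have haU : a ∈ U := (hUV (mem_univ a)).resolve_right haV
  obtain ⟨b, hb, -, hbU⟩ := hU a haU
  obtain ⟨d, hd, -, hdV⟩ := hV c hcV
  let z : Golomb := ⟨b * d, Nat.mul_pos hb hd⟩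
  have hno : ∀ w, w ∈ U → w ∈ V → False := by
    intro w h1 h2
    have : w ∈ univ ∩ (U ∩ V) := ⟨mem_univ _, h1, h2⟩
    rw [hdisj] at this
    exact this
  rcases hUV (mem_univ z) with hz | hz
  · obtain ⟨e, he, hze, heU⟩ := hU z hz
    have hde : Nat.Coprime d e := Nat.Coprime.coprime_dvd_left (Dvd.intro_left b rfl) hze
    obtain ⟨m, n, hmn⟩ := Golomb.meet c z hd he hde
    exact hno _ (heU n) (hmn ▸ hdV m)
  · obtain ⟨e, he, hze, heV⟩ := hV z hz
    have hbe : Nat.Coprime b e := Nat.Coprime.coprime_dvd_left (Dvd.intro d rfl) hze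
    obtain ⟨m, n, hmn⟩ := Golomb.meet a z hb he hbe
    exact hno _ (hbU m) (hmn ▸ heV n)

instance : PreconnectedSpace Golomb := ⟨Golomb.preconnected⟩

instance : Countable Golomb :=
  Function.Injective.countable (f := Golomb.val) (fun _ _ h => Golomb.ext' h)

/-- Every continuous real function on a countable connected space is constant. -/
lemma const_of_countable {G : Type*} [TopologicalSpace G] [PreconnectedSpace G] [Countable G]
    {f : G → ℝ} (hf : Continuous f) (a b : G) : f a = f b := by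
  have key : ∀ a b : G, ¬ f a < f b := by
    intro a b hab
    have h1 : Icc (f a) (f b) ⊆ range f := intermediate_value_univ a b hf
    have h2 : (Icc (f a) (f b)).Countable := (countable_range f).mono h1
    have h3 : Cardinal.mk (Icc (f a) (f b)) = Cardinal.continuum := Cardinal.mk_Icc_real hab
    have h4 := Cardinal.le_aleph0_iff_set_countable.2 h2
    rw [h3] at h4
    exact absurd h4 (not_le.2 Cardinal.aleph0_lt_continuum)
  exact le_antisymm (not_lt.1 (key b a)) (not_lt.1 (key a b))

/-! ### Attaching a convergent sequence -/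

/-- The space `G ∪ {b₀, b₁, …}`, where the `bₙ` are isolated and converge to `g₀ ∈ G`. -/
inductive Att (G : Type*) (g₀ : G)
  | pt : G → Att G g₀
  | seq : ℕ → Att G g₀

variable {G : Type*} {g₀ : G}

instance [TopologicalSpace G] : TopologicalSpace (Att G g₀) where
  IsOpen W := IsOpen (Att.pt ⁻¹' W : Set G) ∧
    (Att.pt g₀ ∈ W → ∀ᶠ n in atTop, (Att.seq n : Att G g₀) ∈ W)
  isOpen_univ := ⟨by simp, fun _ => by simp⟩
  isOpen_inter := by
    rintro U V ⟨hU, hU'⟩ ⟨hV, hV'⟩
    refine ⟨hU.inter hV, fun h => (hU' h.1).and (hV' h.2)⟩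
  isOpen_sUnion := by
    intro S hS
    refine ⟨?_, ?_⟩
    · rw [preimage_sUnion]
      exact isOpen_biUnion fun t ht => (hS t ht).1
    · rintro ⟨t, ht, h⟩
      exact ((hS t ht).2 h).mono fun n hn => ⟨t, ht, hn⟩

lemma Att.isOpen_iff [TopologicalSpace G] {W : Set (Att G g₀)} :
    IsOpen W ↔ IsOpen (Att.pt ⁻¹' W : Set G) ∧
      (Att.pt g₀ ∈ W → ∀ᶠ n in atTop, (Att.seq n : Att G g₀) ∈ W) := Iff.rfl

lemma Att.isOpen_seq [TopologicalSpace G] (n : ℕ) : IsOpen {(Att.seq n : Att G g₀)} := by
  rw [Att.isOpen_iff]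
  constructor
  · convert isOpen_empty (X := G)
    ext x; simp
  · intro h; simp at h

instance [TopologicalSpace G] [T2Space G] : T2Space (Att G g₀) := by
  refine ⟨?_⟩
  have main : ∀ (x : G) (n : ℕ), ∃ u v : Set (Att G g₀), IsOpen u ∧ IsOpen v ∧
      Att.pt x ∈ u ∧ Att.seq n ∈ v ∧ Disjoint u v := by
    intro x n
    refine ⟨{Att.seq n}ᶜ, {Att.seq n}, ?_, Att.isOpen_seq n, by simp, rfl,
      disjoint_compl_left⟩
    rw [Att.isOpen_iff]
    constructor
    · convert isOpen_univ (X := G)
      ext y; simp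
    · intro _
      filter_upwards [eventually_gt_atTop n] with m hm
      simp only [mem_compl_iff, mem_singleton_iff, Att.seq.injEq]
      omega
  intro x y hxy
  cases x with
  | pt x =>
    cases y with
    | pt y =>
      have hxy' : x ≠ y := fun h => hxy (by rw [h])
      obtain ⟨u, v, hu, hv, hxu, hyv, huv⟩ := t2_separation hxy'
      -- enlarge `u`, `v` by the sequence if they contain `g₀`
      have mk : ∀ w : Set G, IsOpen w → IsOpen
          ({z | (∃ a ∈ w, z = Att.pt a) ∨ ∃ n, z = Att.seq n ∧ g₀ ∈ w} : Set (Att G g₀)) := by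
        intro w hw
        rw [Att.isOpen_iff]
        constructor
        · convert hw
          ext a; simp
        · intro h
          have h0 : g₀ ∈ w := by simpa using h
          exact Eventually.of_forall fun n => Or.inr ⟨n, rfl, h0⟩
      refine ⟨_, _, mk u hu, mk v hv, Or.inl ⟨x, hxu, rfl⟩, Or.inl ⟨y, hyv, rfl⟩, ?_⟩
      rw [Set.disjoint_left] at huv ⊢
      rintro z (⟨a, ha, rfl⟩ | ⟨n, rfl, hn⟩) (⟨b, hb, hz⟩ | ⟨m, hz, hm⟩)
      · cases hz; exact huv ha hb
      · cases hz
      · cases hz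
      · exact huv hn hm
    | seq n => exact main x n
  | seq n =>
    cases y with
    | pt y =>
      obtain ⟨u, v, hu, hv, h1, h2, h3⟩ := main y n
      exact ⟨v, u, hv, hu, h2, h1, h3.symm⟩
    | seq m =>
      refine ⟨_, _, Att.isOpen_seq n, Att.isOpen_seq m, rfl, rfl, ?_⟩
      rw [Set.disjoint_singleton]
      exact hxy

lemma Att.continuous_pt [TopologicalSpace G] : Continuous (Att.pt : G → Att G g₀) :=
  ⟨fun _ h => h.1⟩

lemma Att.tendsto_seq [TopologicalSpace G] :
    Tendsto (Att.seq : ℕ → Att G g₀) atTop (𝓝 (Att.pt g₀)) := by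
  rw [tendsto_nhds]
  intro W hW h
  exact hW.2 h

/-- Main example: if every continuous real function on the `T₁` space `G` is constant and `G` has a
point different from `g₀`, then `T''(G ∪ {bₙ})` is not almost regular. -/
theorem not_almostRegular [TopologicalSpace G] [T1Space G] (g₁ : G) (hg : g₁ ≠ g₀)
    (hconst : ∀ f : G → ℝ, Continuous f → ∀ a b, f a = f b) :
    ¬ AlmostRegular (T'' (Att G g₀)) := by
  -- continuous functions on `X`
  have hc : ∀ g : Att G g₀ → ℝ, Continuous g → ∀ a, g (Att.pt a) = g (Att.pt g₀) :=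
    fun g h a => hconst _ (h.comp Att.continuous_pt) a g₀
  -- dense cozero sets are everything
  have hdense : ∀ g : Att G g₀ → ℝ, Continuous g → Dense {x | g x ≠ 0} → ∀ x, g x ≠ 0 := by
    intro g h hd x
    have hO : IsOpen {z : Att G g₀ | ∃ a, a ≠ g₀ ∧ z = Att.pt a} := by
      rw [Att.isOpen_iff]
      constructor
      · convert isOpen_ne (X := G) (x := g₀)
        ext a; simp
      · rintro ⟨a, ha, h'⟩
        cases h'; exact absurd rfl ha
    obtain ⟨z, ⟨a, -, rfl⟩, hz⟩ := hd.inter_open_nonempty _ hO ⟨Att.pt g₁, g₁, hg, rfl⟩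
    have hz' : g (Att.pt a) ≠ 0 := hz
    cases x with
    | pt b => rw [hc g h b, ← hc g h a]; exact hz'
    | seq n =>
      obtain ⟨w, hw, hw'⟩ := hd.inter_open_nonempty _ (Att.isOpen_seq n) ⟨_, rfl⟩
      rw [mem_singleton_iff] at hw
      rw [← hw]; exact hw'
  -- hence `T''(X) = C(X)`
  have hT : ∀ f ∈ T'' (Att G g₀), Continuous f := by
    rintro f ⟨g, h, hd, hf⟩
    have : {x | g x ≠ 0} = univ := eq_univ_of_forall (hdense g h hd)
    rw [this] at hf
    exact continuousOn_univ.1 hf
  -- the bad element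
  let f : Att G g₀ → ℝ := fun x => match x with
    | Att.pt _ => 0
    | Att.seq n => 1 / ((n : ℝ) + 1)
  have hf : Continuous f := by
    rw [continuous_def]
    intro s hs
    rw [Att.isOpen_iff]
    constructor
    · have : (Att.pt ⁻¹' (f ⁻¹' s) : Set G) = {_x | (0 : ℝ) ∈ s} := rfl
      rw [this]
      exact isOpen_const
    · intro h0
      have h0' : (0 : ℝ) ∈ s := h0
      have := tendsto_one_div_add_atTop_nhds_zero_nat (𝕜 := ℝ)
      exact this.eventually (hs.mem_nhds h0')
  have hfT : f ∈ T'' (Att G g₀) := ⟨1, continuous_const, by simp, hf.continuousOn⟩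
  intro hAR
  rcases hAR ⟨f, hfT⟩ with hu | ⟨b, hb, hfb⟩
  · obtain ⟨b, hb⟩ := hu.exists_right_inv
    have h := congrArg (fun r : T'' (Att G g₀) => (r : Att G g₀ → ℝ) (Att.pt g₀)) hb
    have : f (Att.pt g₀) * (b : Att G g₀ → ℝ) (Att.pt g₀) = 1 := h
    simp [f] at this
  · apply hb
    have hbc : Continuous (b : Att G g₀ → ℝ) := hT _ b.2
    have hseq : ∀ n, (b : Att G g₀ → ℝ) (Att.seq n) = 0 := by
      intro n
      have h := congrArg (fun r : T'' (Att G g₀) => (r : Att G g₀ → ℝ) (Att.seq n)) hfb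
      have h' : f (Att.seq n) * (b : Att G g₀ → ℝ) (Att.seq n) = 0 := h
      rcases mul_eq_zero.1 h' with h1 | h1
      · exfalso
        have : (0 : ℝ) < 1 / ((n : ℝ) + 1) := by positivity
        exact this.ne' h1
      · exact h1
    have h0 : (b : Att G g₀ → ℝ) (Att.pt g₀) = 0 := by
      have h1 := (hbc.tendsto (Att.pt g₀)).comp (Att.tendsto_seq (G := G) (g₀ := g₀))
      have h2 : ((b : Att G g₀ → ℝ) ∘ Att.seq) = fun _ => 0 := funext hseq
      rw [h2] at h1
      exact tendsto_nhds_unique h1 tendsto_const_nhds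
    apply Subtype.ext
    funext x
    cases x with
    | pt a => exact (hc _ hbc a).trans h0
    | seq n => exact hseq n

/-- For completely regular spaces the ring `T''(X)` is always almost regular. -/
theorem almostRegular_of_completelyRegular (X : Type*) [TopologicalSpace X]
    [CompletelyRegularSpace X] : AlmostRegular (T'' X) := by
  classical
  rintro ⟨f, g, hg, hd, hf⟩
  have hU : IsOpen {x | g x ≠ 0} := isOpen_ne_fun hg continuous_const
  -- `V = U ∩ coz f` is a cozero set
  let h : X → ℝ := fun x => g x * (f x / (1 + |f x|))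
  have hpos : ∀ x, (0 : ℝ) < 1 + |f x| := fun x => by positivity
  have hle : ∀ x, |h x| ≤ |g x| := by
    intro x
    simp only [h, abs_mul, abs_div, abs_of_pos (hpos x)]
    refine mul_le_of_le_one_right (abs_nonneg _) ?_
    rw [div_le_one (hpos x)]
    linarith
  have hh : Continuous h := by
    rw [continuous_iff_continuousAt]
    intro x
    by_cases hx : g x = 0
    · have hx' : h x = 0 := by simp [h, hx]
      rw [ContinuousAt, hx']
      have h1 : Tendsto (fun y => |g y|) (𝓝 x) (𝓝 0) := by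
        have h2 := (continuous_abs.comp hg).tendsto x
        simp only [Function.comp_apply, hx, abs_zero] at h2
        exact h2
      exact squeeze_zero_norm (fun y => by simpa using hle y) h1
    · have hfx : ContinuousAt f x := hf.continuousAt (hU.mem_nhds hx)
      exact hg.continuousAt.mul (hfx.div (continuousAt_const.add hfx.abs) (hpos x).ne')
  have hcoz : ∀ x, h x ≠ 0 ↔ g x ≠ 0 ∧ f x ≠ 0 := by
    intro x
    simp only [h, ne_eq, mul_eq_zero, div_eq_zero_iff, (hpos x).ne', or_false, not_or]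
  by_cases hV : Dense {x | h x ≠ 0}
  · by_cases hz : ∃ x, f x = 0
    · obtain ⟨x, hx⟩ := hz
      right
      -- the characteristic function of `x`
      have hmem : (Pi.single x 1 : X → ℝ) ∈ T'' X := by
        refine ⟨h, hh, hV, ?_⟩
        refine (continuousOn_const (c := (0 : ℝ))).congr ?_
        intro y hy
        have hyx : y ≠ x := by
          rintro rfl
          exact ((hcoz y).1 hy).2 hx
        simp [Pi.single_eq_of_ne hyx]
      refine ⟨⟨_, hmem⟩, ?_, ?_⟩
      · intro h0
        have := congrArg (fun r : T'' X => (r : X → ℝ) x) h0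
        simp at this
      · apply Subtype.ext
        funext y
        change f y * (Pi.single x 1 : X → ℝ) y = 0
        by_cases hyx : y = x
        · subst hyx; simp [hx]
        · simp [Pi.single_eq_of_ne hyx]
    · push Not at hz
      left
      have hmem : (fun x => (f x)⁻¹) ∈ T'' X := ⟨g, hg, hd, hf.inv₀ fun x _ => hz x⟩
      refine IsUnit.of_mul_eq_one ⟨_, hmem⟩ ?_
      apply Subtype.ext
      funext y
      exact mul_inv_cancel₀ (hz y)
  · right
    -- a continuous function supported off `V`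
    have hnd : ∃ x, x ∉ closure {x | h x ≠ 0} := by
      by_contra hcon
      push Not at hcon
      exact hV hcon
    obtain ⟨x, hx⟩ := hnd
    obtain ⟨φ, hφ, hφx, hφK⟩ := CompletelyRegularSpace.completely_regular x _
      (isClosed_closure (s := {x | h x ≠ 0})) hx
    let k : X → ℝ := fun y => 1 - (φ y : ℝ)
    have hk : Continuous k := continuous_const.sub (continuous_subtype_val.comp hφ)
    have hkV : ∀ y, h y ≠ 0 → k y = 0 := by
      intro y hy
      have := hφK (subset_closure hy)
      simp [k, this]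
    have hkx : k x ≠ 0 := by simp [k, hφx]
    have hkO : IsOpen {y | k y ≠ 0} := isOpen_ne_fun hk continuous_const
    obtain ⟨y, hy1, hy2⟩ := hd.inter_open_nonempty _ hkO ⟨x, hkx⟩
    let b : X → ℝ := fun z => if g z ≠ 0 then k z else 0
    have hmem : b ∈ T'' X := by
      refine ⟨g, hg, hd, hk.continuousOn.congr ?_⟩
      intro z hz
      exact if_pos hz
    refine ⟨⟨b, hmem⟩, ?_, ?_⟩
    · intro h0
      have h1 := congrArg (fun r : T'' X => (r : X → ℝ) y) h0
      have h2 : b y = 0 := h1
      have h3 : b y = k y := if_pos hy2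
      exact hy1 (h3 ▸ h2)
    · apply Subtype.ext
      funext z
      change f z * b z = 0
      by_cases hz : g z ≠ 0
      · have hb : b z = k z := if_pos hz
        rw [hb]
        by_cases hfz : f z = 0
        · simp [hfz]
        · rw [hkV z ((hcoz z).2 ⟨hz, hfz⟩), mul_zero]
      · have hb : b z = 0 := if_neg hz
        rw [hb, mul_zero]

/-- Q1 of MP_3eafcc_gt: yes, there is even a countable Hausdorff (hence `T₁`) example; whereas for
completely regular spaces `T''(X)` is always almost regular. -/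
theorem result :
    (∃ (X : Type) (_ : TopologicalSpace X), T2Space X ∧ Countable X ∧ ¬ AlmostRegular (T'' X)) ∧
    (∀ (X : Type u) [TopologicalSpace X] [CompletelyRegularSpace X], AlmostRegular (T'' X)) := by
  refine ⟨⟨Att Golomb ⟨1, one_pos⟩, inferInstance, inferInstance, ?_, ?_⟩, ?_⟩
  · refine Function.Injective.countable (β := Golomb ⊕ ℕ)
      (f := fun x => match x with | Att.pt a => Sum.inl a | Att.seq n => Sum.inr n) ?_
    rintro (a | n) (b | m) h <;> simp_all
  · refine not_almostRegular ⟨2, two_pos⟩ ?_ fun f hf a b => const_of_countable hf a b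
    intro h
    have := congrArg Golomb.val h
    norm_num at this
  · intro X _ _
    exact almostRegular_of_completelyRegular X

end Pool.Agent.Results.MP_3eafcc_gt.NotAlmostRegular
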